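import Pool.Agent.Helper76.FT.GoalsB

/-!
# Packet FT-CROSS (MP_39e2b7_an)
-/

set_option autoImplicit false

namespace Pool.Agent.Helper33.FT

open Complex Set Filter Topology

lemma side_lt {h : ℝ → ℝ} (hc : Continuous h) {c : ℝ} (hne : ∀ t ∈ Icc (0:ℝ) 1, h t ≠ c)
    {a b : ℝ} (ha : a ∈ Icc (0:ℝ) 1) (hb : b ∈ Icc (0:ℝ) 1) (hac : h a < c) : h b < c := by
  by_contra hcon
  push Not at hcon
  have := isPreconnected_Icc.intermediate_value ha hb hc.continuousOn
  obtain ⟨t, ht, htc⟩ := this ⟨hac.le, hcon⟩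
  exact hne t ht htc

lemma side_gt {h : ℝ → ℝ} (hc : Continuous h) {c : ℝ} (hne : ∀ t ∈ Icc (0:ℝ) 1, h t ≠ c)
    {a b : ℝ} (ha : a ∈ Icc (0:ℝ) 1) (hb : b ∈ Icc (0:ℝ) 1) (hac : c < h a) : c < h b := by
  by_contra hcon
  push Not at hcon
  have := isPreconnected_Icc.intermediate_value hb ha hc.continuousOn
  obtain ⟨t, ht, htc⟩ := this ⟨hcon, hac.le⟩
  exact hne t ht htc

theorem exists_log (F : ℝ × ℝ → ℂ) (hF : Continuous F) (h0 : ∀ p, F p ≠ 0) :
    ∃ L : ℝ × ℝ → ℂ, Continuous L ∧ ∀ p, Complex.exp (L p) = F p := by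
  have hs : IsSimplyConnected (univ : Set (ℝ × ℝ)) := by
    have : SimplyConnectedSpace (univ : Set (ℝ × ℝ)) := by
      have : ContractibleSpace (univ : Set (ℝ × ℝ)) :=
        (Homeomorph.Set.univ (ℝ × ℝ)).contractibleSpace
      infer_instance
    exact this
  obtain ⟨L, hL, hE⟩ := Complex.exists_continuousOn_eqOn_exp_comp hs isOpen_univ
    (g := F) hF.continuousOn (by rintro ⟨p, -, hp⟩; exact h0 p hp)
  exact ⟨L, continuousOn_univ.1 hL, fun p => hE (mem_univ p)⟩

/-- Packet FT-CROSS -/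
theorem ft_cross : Pool.Agent.Helper76.FT.GCross := by
  intro γ₁ γ₂ T₀ T₁ hT hc1 hc2 hb1 hb2 h10 h11 h20 h21 hlow hup
  by_contra hmeet
  push Not at hmeet
  have h01 : (0:ℝ) ≤ 1 := zero_le_one
  let g₁ : ℝ → ℂ := fun s => γ₁ (projIcc 0 1 h01 s)
  let g₂ : ℝ → ℂ := fun s => γ₂ (projIcc 0 1 h01 s)
  have hg1 : Continuous g₁ := by
    have : Continuous (IccExtend h01 (fun x : Icc (0:ℝ) 1 => γ₁ x)) :=
      (continuousOn_iff_continuous_domRestrict.1 hc1).Icc_extend'
    exact this
  have hg2 : Continuous g₂ := by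
    have : Continuous (IccExtend h01 (fun x : Icc (0:ℝ) 1 => γ₂ x)) :=
      (continuousOn_iff_continuous_domRestrict.1 hc2).Icc_extend'
    exact this
  have e1 : ∀ s ∈ Icc (0:ℝ) 1, g₁ s = γ₁ s := fun s hs => by
    simp only [g₁]; rw [projIcc_of_mem h01 hs]
  have e2 : ∀ s ∈ Icc (0:ℝ) 1, g₂ s = γ₂ s := fun s hs => by
    simp only [g₂]; rw [projIcc_of_mem h01 hs]
  have m0 : (0:ℝ) ∈ Icc (0:ℝ) 1 := ⟨le_rfl, h01⟩
  have m1 : (1:ℝ) ∈ Icc (0:ℝ) 1 := ⟨h01, le_rfl⟩
  obtain ⟨L, hL, hE⟩ := exists_log (fun p => g₁ p.1 - g₂ p.2)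
    ((hg1.comp continuous_fst).sub (hg2.comp continuous_snd))
    (fun p hp => hmeet _ (projIcc 0 1 h01 p.1).2 _ (projIcc 0 1 h01 p.2).2 (sub_eq_zero.1 hp))
  have him : ∀ s ∈ Icc (0:ℝ) 1, ∀ s' ∈ Icc (0:ℝ) 1,
      Real.exp (L (s, s')).re * Real.sin (L (s, s')).im = (γ₁ s).im - (γ₂ s').im := by
    intro s hs s' hs'
    have := congrArg Complex.im (hE (s, s'))
    simp only [Complex.exp_im, Complex.sub_im] at this
    rw [this, e1 s hs, e2 s' hs']
  have hre : ∀ s ∈ Icc (0:ℝ) 1, ∀ s' ∈ Icc (0:ℝ) 1,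
      Real.exp (L (s, s')).re * Real.cos (L (s, s')).im = (γ₁ s).re - (γ₂ s').re := by
    intro s hs s' hs'
    have := congrArg Complex.re (hE (s, s'))
    simp only [Complex.exp_re, Complex.sub_re] at this
    rw [this, e1 s hs, e2 s' hs']
  -- shift the logarithm
  have h00 : ∃ k : ℤ, (L (0, 0)).im = Real.pi + k * (2 * Real.pi) := by
    have a := him 0 m0 0 m0
    have b := hre 0 m0 0 m0
    rw [h10, h20, sub_self] at a
    have hsin : Real.sin (L (0, 0)).im = 0 := by
      rcases mul_eq_zero.1 a with h | h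
      · exact absurd h (Real.exp_pos _).ne'
      · exact h
    have hcos : Real.cos (L (0, 0)).im < 0 := by
      have := hlow 0 m0 0 m0 h10 h20
      have hp := Real.exp_pos (L (0, 0)).re
      by_contra hcon
      push Not at hcon
      nlinarith [mul_nonneg hp.le hcon]
    have hcos1 : Real.cos (L (0, 0)).im = -1 := by
      have := Real.sin_sq_add_cos_sq (L (0, 0)).im
      rw [hsin] at this
      nlinarith
    obtain ⟨k, hk⟩ := Real.cos_eq_neg_one_iff.1 hcos1
    exact ⟨k, hk.symm⟩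
  obtain ⟨k, hk⟩ := h00
  set θ : ℝ × ℝ → ℝ := fun p => (L p).im - k * (2 * Real.pi) with hθ
  have hθc : Continuous θ := (Complex.continuous_im.comp hL).sub continuous_const
  have hsinθ : ∀ p, Real.sin (θ p) = Real.sin (L p).im := fun p => by
    simp only [hθ]; exact Real.sin_sub_int_mul_two_pi _ _
  have hcosθ : ∀ p, Real.cos (θ p) = Real.cos (L p).im := fun p => by
    simp only [hθ]; exact Real.cos_sub_int_mul_two_pi _ _
  have him' : ∀ s ∈ Icc (0:ℝ) 1, ∀ s' ∈ Icc (0:ℝ) 1,
      Real.exp (L (s, s')).re * Real.sin (θ (s, s')) = (γ₁ s).im - (γ₂ s').im := by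
    intro s hs s' hs'; rw [hsinθ]; exact him s hs s' hs'
  have hre' : ∀ s ∈ Icc (0:ℝ) 1, ∀ s' ∈ Icc (0:ℝ) 1,
      Real.exp (L (s, s')).re * Real.cos (θ (s, s')) = (γ₁ s).re - (γ₂ s').re := by
    intro s hs s' hs'; rw [hcosθ]; exact hre s hs s' hs'
  have hpi := Real.pi_pos
  have t00 : θ (0, 0) = Real.pi := by simp only [hθ, hk]; ring
  -- side s' = 0
  have A1 : θ (1, 0) < 2 * Real.pi := by
    have := side_lt (h := fun t => θ (t, 0)) (by fun_prop) (c := 2 * Real.pi) ?_ m0 m1
      (by simp only [t00]; linarith)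
    · exact this
    · intro t ht h2
      have a := him' t ht 0 m0
      have b := hre' t ht 0 m0
      rw [h2, Real.sin_two_pi, mul_zero] at a
      rw [h2, Real.cos_two_pi, mul_one] at b
      have := hlow t ht 0 m0 (by linarith) h20
      have := Real.exp_pos (L (t, 0)).re
      linarith
  have A2 : 0 < θ (1, 0) := by
    have := side_gt (h := fun t => θ (t, 0)) (by fun_prop) (c := 0) ?_ m0 m1
      (by simp only [t00]; linarith)
    · exact this
    · intro t ht h2
      have a := him' t ht 0 m0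
      have b := hre' t ht 0 m0
      rw [h2, Real.sin_zero, mul_zero] at a
      rw [h2, Real.cos_zero, mul_one] at b
      have := hlow t ht 0 m0 (by linarith) h20
      have := Real.exp_pos (L (t, 0)).re
      linarith
  have A3 : θ (1, 0) < Real.pi := by
    by_contra hcon
    push Not at hcon
    have a := him' 1 m1 0 m0
    rw [h11, h20] at a
    have hs : Real.sin (θ (1, 0)) ≤ 0 := by
      rw [← Real.sin_sub_two_pi]
      exact Real.sin_nonpos_of_nonpos_of_neg_pi_le (by linarith) (by linarith)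
    nlinarith [Real.exp_pos (L (1, 0)).re]
  -- side s = 1
  have B1 : θ (1, 1) < Real.pi := by
    have := side_lt (h := fun t => θ (1, t)) (by fun_prop) (c := Real.pi) ?_ m0 m1 A3
    · exact this
    · intro t ht h2
      have a := him' 1 m1 t ht
      have b := hre' 1 m1 t ht
      rw [h2, Real.sin_pi, mul_zero] at a
      rw [h2, Real.cos_pi] at b
      have := hup 1 m1 t ht h11 (by linarith)
      have := Real.exp_pos (L (1, t)).re
      linarith
  have B2 : -(Real.pi / 2) < θ (1, 1) := by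
    have := side_gt (h := fun t => θ (1, t)) (by fun_prop) (c := -(Real.pi / 2)) ?_ m0 m1
      (by linarith)
    · exact this
    · intro t ht h2
      have a := him' 1 m1 t ht
      rw [h2, Real.sin_neg, Real.sin_pi_div_two] at a
      have := (hb2 t ht).2
      have := Real.exp_pos (L (1, t)).re
      linarith
  have B3 : θ (1, 1) < Real.pi / 2 := by
    by_contra hcon
    push Not at hcon
    have b := hre' 1 m1 1 m1
    have := hup 1 m1 1 m1 h11 h21
    have hs : Real.cos (θ (1, 1)) ≤ 0 :=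
      Real.cos_nonpos_of_pi_div_two_le_of_le hcon (by linarith)
    nlinarith [Real.exp_pos (L (1, 1)).re]
  -- side s' = 1
  have C1 : θ (0, 1) < Real.pi / 2 := by
    have := side_lt (h := fun t => θ (t, 1)) (by fun_prop) (c := Real.pi / 2) ?_ m1 m0 B3
    · exact this
    · intro t ht h2
      have a := him' t ht 1 m1
      rw [h2, Real.sin_pi_div_two] at a
      have := (hb1 t ht).2
      have := Real.exp_pos (L (t, 1)).re
      linarith
  have C2 : -Real.pi < θ (0, 1) := by
    have := side_gt (h := fun t => θ (t, 1)) (by fun_prop) (c := -Real.pi) ?_ m1 m0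
      (by linarith)
    · exact this
    · intro t ht h2
      have a := him' t ht 1 m1
      have b := hre' t ht 1 m1
      rw [h2, Real.sin_neg, Real.sin_pi, neg_zero, mul_zero] at a
      rw [h2, Real.cos_neg, Real.cos_pi] at b
      have := hup t ht 1 m1 (by linarith) h21
      have := Real.exp_pos (L (t, 1)).re
      linarith
  have C3 : θ (0, 1) < 0 := by
    by_contra hcon
    push Not at hcon
    have a := him' 0 m0 1 m1
    rw [h10, h21] at a
    have hs : 0 ≤ Real.sin (θ (0, 1)) :=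
      Real.sin_nonneg_of_nonneg_of_le_pi hcon (by linarith)
    nlinarith [Real.exp_pos (L (0, 1)).re, mul_nonneg (Real.exp_pos (L (0, 1)).re).le hs]
  -- side s = 0
  have D1 : θ (0, 0) < 0 := by
    have := side_lt (h := fun t => θ (0, t)) (by fun_prop) (c := 0) ?_ m1 m0 C3
    · exact this
    · intro t ht h2
      have a := him' 0 m0 t ht
      have b := hre' 0 m0 t ht
      rw [h2, Real.sin_zero, mul_zero] at a
      rw [h2, Real.cos_zero, mul_one] at b
      have := hlow 0 m0 t ht h10 (by linarith)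
      have := Real.exp_pos (L (0, t)).re
      linarith
  linarith

end Pool.Agent.Helper33.FT
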